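import Pool.Agent.Q29.NT.Main

/-!
# A `K^(2)E`-closed subcategory which is not a 3-fold torsion-free class

The definitions of torsion-free classes of extension-closed subcategories, of `n`-fold torsion-free
classes and of `K^(n)E`-closed subcategories are in `Pool.Agent.Q29.NT.Defs`.  The abelian category
is the category of functors from the poset `Fin 3 × Fin 3` to abelian groups, and the subcategory
consists of the functors `V` with `V(1,0) = V(2,1) = 0` for which
`0 → V(0,0) → V(0,1) → V(1,2) → V(2,2) → 0` is exact.
-/

open CategoryTheory

namespace Pool.Agent.Results.MP_8e2405_al.NotThreeFold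

open Q29.NT

/-- There are an abelian category and a `K^(2)E`-closed subcategory of it which is not a 3-fold
torsion-free class. -/
theorem result : ∃ (C : Type 1) (_ : Category.{0} C) (_ : Abelian C) (X : ObjectProperty C),
    IsKEClosed 2 X ∧ ¬ IsNFoldTorsionFree 3 X :=
  ⟨D, inferInstance, inferInstance, X, X_isKEClosed, not_isNFoldTorsionFree⟩

end Pool.Agent.Results.MP_8e2405_al.NotThreeFold
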